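import Pool.Agent.H.MP_28611e_an.D

namespace Pool.Agent.Results.MP_4d2d01_an.Yes

open MeasureTheory Set Filter Topology Polynomial
open scoped BoundedContinuousFunction

noncomputable def energy (D : ℝ) (ν : Measure ℝ) : ENNReal :=
  ∫⁻ x, ∫⁻ y, (if x = y then (⊤ : ENNReal) else ENNReal.ofReal (Real.log (D / |x - y|))) ∂ν ∂ν

def AlmostPeriodic (c : ℤ →ᵇ ℝ × ℝ) : Prop :=
  TotallyBounded {d : ℤ →ᵇ ℝ × ℝ | ∃ k : ℤ, ∀ n, d n = c (n + k)}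

lemma per {c : ℤ →ᵇ ℝ × ℝ} (h : AlmostPeriodic c) {ε : ℝ} (hε : 0 < ε) :
    ∃ τ : ℕ, τ ≠ 0 ∧ ∀ n : ℤ, |(c (n + 1 + τ)).1 - (c (n + 1)).1| < ε := by
  obtain ⟨t, tf, ht⟩ := Metric.totallyBounded_iff.1 h (ε / 2) (half_pos hε)
  let d : ℕ → ℤ →ᵇ ℝ × ℝ := fun k => c.compContinuous ⟨fun n => n + k, by fun_prop⟩
  have ex : ∀ k : ℕ, ∃ y : t, d k ∈ Metric.ball y.1 (ε / 2) := fun k => by
    simpa using ht (show d k ∈ _ from ⟨k, fun _ => rfl⟩)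
  choose y hy using ex
  have := tf.to_subtype
  obtain ⟨a, b, ab, e⟩ := Finite.exists_ne_map_eq_of_infinite y
  wlog l : a < b generalizing a b
  · exact this b a ab.symm e.symm (ab.lt_or_gt.resolve_left l)
  obtain ⟨τ, rfl⟩ := Nat.exists_eq_add_of_lt l
  refine ⟨τ + 1, by omega, fun n => ?_⟩
  have k : dist (d (a + τ + 1)) (d a) < ε := (dist_triangle_right _ _ _).trans_lt (by
    linarith [Metric.mem_ball.1 (hy (a + τ + 1)), Metric.mem_ball.1 (e ▸ hy a)])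
  have := (le_max_left _ _).trans_lt (((d _).dist_coe_le_dist (n + 1 - a)).trans_lt k)
  simp only [d, BoundedContinuousFunction.compContinuous_apply, ContinuousMap.coe_mk] at this
  rwa [sub_add_cancel, show n + 1 - a + (a + τ + 1 : ℕ) = n + 1 + (τ + 1 : ℕ) by push_cast; ring,
    Real.dist_eq] at this

theorem result : ∃ (K : Set ℝ) (D : ℝ) (μ : Measure ℝ) (p : ℕ → ℝ[X]),
    IsCompact K ∧ volume K = 0 ∧ Metric.diam K < D ∧
    IsProbabilityMeasure μ ∧ μ Kᶜ = 0 ∧ energy D μ < ⊤ ∧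
    (∀ ν : Measure ℝ, IsProbabilityMeasure ν → ν Kᶜ = 0 → energy D μ ≤ energy D ν) ∧
    (∀ z : ℂ, Integrable (fun y : ℝ => Real.log ‖z - y‖) μ) ∧
    Continuous (fun z : ℂ => ∫ y : ℝ, Real.log ‖z - y‖ ∂μ) ∧
    (∀ x ∈ K, ∫ y : ℝ, Real.log ‖(x : ℂ) - y‖ ∂μ = Real.log D - (energy D μ).toReal) ∧
    (∀ n, (p n).natDegree = n ∧ 0 < (p n).leadingCoeff) ∧
    (∀ m n, ∫ x, (p m).eval x * (p n).eval x ∂μ = if m = n then 1 else 0) ∧
    ¬ ∃ c : ℤ →ᵇ ℝ × ℝ, AlmostPeriodic c ∧ Tendsto (fun n : ℕ =>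
      |∫ x, x * (p n).eval x * (p (n + 1)).eval x ∂μ - (c (n + 1)).1| +
        |∫ x, x * (p n).eval x * (p n).eval x ∂μ - (c (n + 1)).2|) atTop (𝓝 0) := by
  open Pool.Agent.H.MP_28611e_an in
  obtain ⟨Y, hY, hL, gap⟩ := gapB
  have y1 := fun j => (hY j).1
  obtain ⟨μ, H⟩ := exMs y1
  obtain ⟨p, p1, p2, p3⟩ := H.on y1
  obtain ⟨e1, e2, e3, e4⟩ := H.eqm hY
  obtain ⟨e5, e6⟩ := e4 7 (by norm_num) le_rfl fun x hx y hy =>
    (Metric.dist_le_diam_of_mem K_cpt.isBounded hx hy).trans (K_diam.trans (by norm_num))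
  refine ⟨K Y 0, 7, μ 0, p, K_cpt, null y1 hL, K_diam.trans_lt (by norm_num), H.pr 0, H.aeK 0, e5, e6,
    e1, e2, e3, p1, p2, fun ⟨c, c1, c2⟩ => ?_⟩
  simp only [p3] at c2
  exact notAP0 (δ := 1 / 20) (by norm_num) gap (c := fun n => (c (n + 1)).1)
    (fun ε hε => (per c1 hε).imp fun τ h => ⟨h.1, fun n => by rw [add_right_comm]; exact h.2 n⟩)
    (tendsto_zero_iff_abs_tendsto_zero _ |>.2 (squeeze_zero (fun _ => abs_nonneg _)
      (fun n => le_add_of_nonneg_right (abs_nonneg _)) c2))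

end Pool.Agent.Results.MP_4d2d01_an.Yes
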